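import Pool.Agent.Helper35.PQF.St3

/-! # Module DC of project PQF: criterion -/

set_option autoImplicit false

open Filter Topology Matrix Set MeasureTheory
open scoped ENNReal ComplexOrder

namespace Pool.Agent.Helper47.PM

open Pool.Agent.Helper35.PM

/-- The sequence `exp (-(2^k - 1))`. -/
noncomputable def ys (k : ℕ) : ℝ := Real.exp (-((2 : ℝ) ^ k - 1))

theorem ys_pos (k : ℕ) : 0 < ys k := Real.exp_pos _

theorem ys_le (k : ℕ) : ys k ≤ 1 := by
  unfold ys
  rw [Real.exp_le_one_iff]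
  have : (1 : ℝ) ≤ 2 ^ k := one_le_pow₀ (by norm_num)
  linarith

theorem ys_log (k : ℕ) : Real.log (ys k) = -((2 : ℝ) ^ k - 1) := Real.log_exp _

theorem ys_anti : Antitone ys := by
  intro i j hij
  unfold ys
  apply Real.exp_le_exp.2
  have : (2 : ℝ) ^ i ≤ 2 ^ j := pow_le_pow_right₀ (by norm_num) hij
  linarith

theorem ys_tendsto : Tendsto ys atTop (𝓝[>] 0) := by
  rw [tendsto_nhdsWithin_iff]
  refine ⟨?_, Filter.Eventually.of_forall fun n => ys_pos n⟩
  have h1 : Tendsto (fun k : ℕ => (2 : ℝ) ^ k - 1) atTop atTop :=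
    tendsto_atTop_add_const_right _ _ (tendsto_pow_atTop_atTop_of_one_lt (by norm_num))
  exact Real.tendsto_exp_neg_atTop_nhds_zero.comp h1

/-- one term of the sum -/
theorem term_le (C a m : ℝ) (hC : 0 ≤ C) (k : ℕ)
    (hm : m ≤ C * (1 + Real.log (1 / ys k)) ^ (-a)) :
    Real.sqrt m * Real.sqrt (Real.log (ys k / ys (k + 1))) ≤
      Real.sqrt C * ((2 : ℝ) ^ (-(a - 1) / 2)) ^ k := by
  have h2k : (0 : ℝ) < 2 ^ k := by positivity
  have hl : Real.log (ys k / ys (k + 1)) = 2 ^ k := by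
    rw [Real.log_div (ys_pos _).ne' (ys_pos _).ne', ys_log, ys_log, pow_succ]
    ring
  have hl2 : 1 + Real.log (1 / ys k) = 2 ^ k := by
    rw [one_div, Real.log_inv, ys_log]
    ring
  rw [hl2] at hm
  rw [hl]
  calc Real.sqrt m * Real.sqrt (2 ^ k)
      ≤ Real.sqrt (C * ((2 : ℝ) ^ k) ^ (-a)) * Real.sqrt (2 ^ k) :=
        mul_le_mul_of_nonneg_right (Real.sqrt_le_sqrt hm) (Real.sqrt_nonneg _)
    _ = Real.sqrt C * (Real.sqrt (((2 : ℝ) ^ k) ^ (-a)) * Real.sqrt (2 ^ k)) := by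
        rw [Real.sqrt_mul hC, mul_assoc]
    _ = Real.sqrt C * ((2 : ℝ) ^ (-(a - 1) / 2)) ^ k := by
        congr 1
        rw [Real.sqrt_eq_rpow, Real.sqrt_eq_rpow, ← Real.rpow_mul h2k.le, ← Real.rpow_add h2k,
          ← Real.rpow_natCast 2 k, ← Real.rpow_mul (by norm_num), ← Real.rpow_natCast,
          ← Real.rpow_mul (by norm_num)]
        congr 1
        ring

/-- Module DC. -/
theorem dc (dt : St_DT) : St_DC := by
  intro g hg U hU C a hC ha F h1 h2 L hL hm ht
  set r : ℝ := (2 : ℝ) ^ (-(a - 1) / 2) with hr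
  have hr0 : 0 < r := Real.rpow_pos_of_pos two_pos _
  have hr1 : r < 1 := Real.rpow_lt_one_of_one_lt_of_neg one_lt_two (by linarith)
  have hsum : ∀ n : ℕ, ∑ k ∈ Finset.range n, r ^ k ≤ 1 / (1 - r) := by
    intro n
    have h3 : Summable fun k : ℕ => r ^ k := summable_geometric_of_lt_one hr0.le hr1
    have h4 := h3.sum_le_tsum (Finset.range n) (fun k _ => pow_nonneg hr0.le k)
    rw [tsum_geometric_of_lt_one hr0.le hr1] at h4
    rwa [one_div]
  have hb : ∀ n : ℕ, pressureDist U (F 0 0) (F (zt L) 0) ≤ ENNReal.ofReal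
      (3 + 2 * Real.sqrt C / (1 - r) + (2 * Real.pi)⁻¹ * ∫ θ in (0 : ℝ)..(2 * Real.pi),
        cost (fun z => F z (pt (-(ys n)) θ)) L) := by
    intro n
    refine (dt g hg U hU F h1 h2 L hL n ys (by simp [ys]) ys_anti ys_pos).trans ?_
    apply ENNReal.ofReal_le_ofReal
    have h5 : ∑ k ∈ Finset.range n, (Real.sqrt (mdef (F 0) (ys k)) +
        Real.sqrt (mdef (F (zt L)) (ys k))) * Real.sqrt (Real.log (ys k / ys (k + 1))) ≤
        2 * Real.sqrt C / (1 - r) := by
      calc _ ≤ ∑ k ∈ Finset.range n, 2 * Real.sqrt C * r ^ k := by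
            apply Finset.sum_le_sum
            intro k _
            have h6 := hm (ys k) (ys_pos k) (ys_le k)
            have h7 := term_le C a _ hC k h6.1
            have h8 := term_le C a _ hC k h6.2
            rw [add_mul]
            rw [← hr] at h7 h8
            linarith
        _ = 2 * Real.sqrt C * ∑ k ∈ Finset.range n, r ^ k := by rw [Finset.mul_sum]
        _ ≤ 2 * Real.sqrt C * (1 / (1 - r)) :=
            mul_le_mul_of_nonneg_left (hsum n) (by positivity)
        _ = 2 * Real.sqrt C / (1 - r) := by ring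
    linarith
  have hlim : Tendsto (fun n : ℕ => ENNReal.ofReal
      (3 + 2 * Real.sqrt C / (1 - r) + (2 * Real.pi)⁻¹ * ∫ θ in (0 : ℝ)..(2 * Real.pi),
        cost (fun z => F z (pt (-(ys n)) θ)) L)) atTop
      (𝓝 (ENNReal.ofReal (3 + 2 * Real.sqrt C / (1 - r) + (2 * Real.pi)⁻¹ * 0))) := by
    apply ENNReal.tendsto_ofReal
    exact tendsto_const_nhds.add (tendsto_const_nhds.mul (ht.comp ys_tendsto))
  rw [mul_zero, add_zero] at hlim
  exact ge_of_tendsto' hlim hb

end Pool.Agent.Helper47.PM
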