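import Pool.Agent.Helper62.PM.St2

/-!
# Project PM, module XE: the criterion gives sublinearity for smooth functions
-/

set_option autoImplicit false

open MeasureTheory Metric Set Filter Topology Polynomial
open scoped RealInnerProductSpace ContDiff

namespace Pool.Agent.Helper47.PM

open Pool.Agent.Helper62.PM
open Pool.Agent.Helper62.Mink

private theorem isRot_refl {n : ℕ} : IsRot (LinearIsometryEquiv.refl ℝ (E n)) := by
  unfold IsRot
  have : ((LinearIsometryEquiv.refl ℝ (E n)).toLinearEquiv.toLinearMap : E n →ₗ[ℝ] E n)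
      = LinearMap.id := rfl
  rw [this, LinearMap.det_id]

private theorem isRot_trans {n : ℕ} {η θ : E n ≃ₗᵢ[ℝ] E n} (hη : IsRot η) (hθ : IsRot θ) :
    IsRot (η.trans θ) := by
  unfold IsRot at hθ hη ⊢
  have e1 : ((η.trans θ).toLinearEquiv.toLinearMap : E n →ₗ[ℝ] E n) =
      (θ.toLinearEquiv.toLinearMap : E n →ₗ[ℝ] E n) ∘ₗ
        (η.toLinearEquiv.toLinearMap : E n →ₗ[ℝ] E n) := rfl
  rw [e1, LinearMap.det_comp, hθ, hη, mul_one]

theorem hXE : StA → StD → StE → StL → StXA → StXC → StXE := by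
  intro hA hD hE hL hXA hXC n e v μ A N C m hn hev hZ hO hm hmon hgen h hh hsub
  have := hm
  obtain ⟨d1, d2, d3, d4, d5⟩ := hD n
  obtain ⟨a1, a2, a3, a4⟩ := hA n e v hev
  obtain ⟨x1, x2, x3, x4, x5⟩ := hXA n
  refine ⟨hO.hom h hh, ?_⟩
  refine hE n (A h) (by omega) (hO.cont h hh) (hO.hom h hh) ?_
  intro a b hab
  obtain ⟨θ, hθ, hθe, hθv⟩ := hL n e v a b hn hev hab
  obtain ⟨φ, hφ⟩ : ∃ φ : E n → ℝ, φ = fun z => h (θ z) := ⟨_, rfl⟩
  have hφS : S1 φ := by
    rw [hφ]
    exact (d3 θ h hh).1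
  obtain ⟨c1, c2⟩ := hXC n e v φ hev hφS
  refine ⟨∫ p, D2 φ p.2 p.1 ∂m, ?_, ?_⟩
  · refine integral_nonneg_of_ae ?_
    have hae : ∀ᵐ p ∂m, ON p := by
      rw [ae_iff]
      exact hmon
    filter_upwards [hae] with p hp
    have e1 := (d3 θ h hh).2 p hp
    rw [← hφ] at e1
    rw [e1]
    refine D2_nonneg hsub hh.smooth _ ?_
    intro h0
    have h1 : ‖θ p.1‖ = 0 := by rw [h0, norm_zero]
    rw [θ.norm_map, hp.1] at h1
    exact one_ne_zero h1
  · have hrpS : ∀ s : ℝ, S1 (fun z => φ (rp e v s z)) := by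
      intro s
      obtain ⟨η, _, hη'⟩ := a1 s
      have e1 : (fun z => φ (rp e v s z)) = fun z => φ (η z) := by
        funext z
        rw [hη']
      rw [e1]
      exact (d3 η φ hφS).1
    have hpole : ∀ s : ℝ, A h (Real.cos s • a + Real.sin s • b) = μ (fun z => φ (rp e v s z)) := by
      intro s
      obtain ⟨η, hη, hη'⟩ := a1 s
      have e2 : Real.cos s • a + Real.sin s • b = (η.trans θ) e := by
        show _ = θ (η e)
        rw [hη', a4, map_add, map_smul, map_smul, hθe, hθv]
      rw [e2, hO.pole h hh _ (isRot_trans hη hθ)]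
      congr 1
      funext w
      rw [hφ]
      show h (θ (η w)) = h (θ (rp e v s w))
      rw [hη']
    have hpole' : ∀ s : ℝ, A h (Real.cos s • a - Real.sin s • b) =
        μ (fun z => φ (rp e v (-s) z)) := by
      intro s
      have := hpole (-s)
      rw [Real.cos_neg, Real.sin_neg, neg_smul, ← sub_eq_add_neg] at this
      exact this
    have hpole0 : A h a = μ φ := by
      have := hpole 0
      rw [Real.cos_zero, Real.sin_zero, one_smul, zero_smul, add_zero] at this
      simpa only [a3] using this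
    have hq : ∀ s : ℝ, quo e v φ s = fun z => (1 / s ^ 2) *
        ((fun z => (fun z => φ (rp e v s z) + φ (rp e v (-s) z)) z +
          (fun z => (-(2 * Real.cos s)) * φ z) z) z) := by
      intro s
      funext z
      unfold quo
      ring
    have hqS1 : ∀ s : ℝ, S1 (fun z => (fun z => φ (rp e v s z) + φ (rp e v (-s) z)) z +
          (fun z => (-(2 * Real.cos s)) * φ z) z) := by
      intro s
      exact (d1 _ _ (d1 _ _ (hrpS s) (hrpS (-s))).1 (d2 _ _ hφS).1).1
    have hqS : ∀ s : ℝ, S1 (quo e v φ s) := by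
      intro s
      rw [hq s]
      exact (d2 _ _ (hqS1 s)).1
    have hμq : ∀ s : ℝ, μ (quo e v φ s) = (μ (fun z => φ (rp e v s z)) +
        μ (fun z => φ (rp e v (-s) z)) - 2 * Real.cos s * μ φ) / s ^ 2 := by
      intro s
      rw [hq s, hZ.smul _ _ (hqS1 s), hZ.add _ _ (d1 _ _ (hrpS s) (hrpS (-s))).1 (d2 _ _ hφS).1,
        hZ.add _ _ (hrpS s) (hrpS (-s)), hZ.smul _ _ hφS]
      ring
    have hAe : ∀ ψ : E n → ℝ, S1 ψ → A ψ e = μ ψ := by
      intro ψ hψ
      exact hO.pole ψ hψ _ isRot_refl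
    have key : Tendsto (fun s : ℝ => μ (quo e v φ s)) (𝓝[>] 0) (𝓝 (μ (Lop e v φ))) := by
      rw [Metric.tendsto_nhds]
      intro ε hε
      have hC : 0 < |C| + 1 := by positivity
      set ε' : ℝ := ε / (2 * (|C| + 1)) with hε'
      have hε'0 : 0 < ε' := by positivity
      have hfin : {w : List (Fin n × Fin n) | w.length ≤ N}.Finite := List.finite_length_le _ _
      have hev' : ∀ᶠ s in 𝓝[>] (0 : ℝ), ∀ w ∈ {w : List (Fin n × Fin n) | w.length ≤ N},
          ∀ x : E n, ‖x‖ = 1 → |Xw w (quo e v φ s) x - Xw w (Lop e v φ) x| ≤ ε' := by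
        rw [eventually_all_finite hfin]
        intro w _
        obtain ⟨δ, hδ, hδ'⟩ := c2 w ε' hε'0
        filter_upwards [Ioo_mem_nhdsGT hδ] with s hs
        exact hδ' s hs.1 hs.2
      filter_upwards [hev'] with s hs
      have hψS : S1 (fun z => quo e v φ s z + (fun z => (-1) * Lop e v φ z) z) :=
        (d1 _ _ (hqS s) (d2 (-1) _ c1).1).1
      have hbd : Bd N (fun z => quo e v φ s z + (fun z => (-1) * Lop e v φ z) z) ε' := by
        intro w hw x hx
        have hx0 : x ≠ 0 := by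
          rintro rfl
          rw [norm_zero] at hx
          exact zero_ne_one hx
        rw [(x3 w (quo e v φ s) (fun z => (-1) * Lop e v φ z) 1 (hqS s) (d2 (-1) _ c1).1 x hx0).1,
          (x3 w (Lop e v φ) (Lop e v φ) (-1) c1 c1 x hx0).2]
        have := hs w hw x hx
        rw [neg_one_mul, ← sub_eq_add_neg]
        exact this
      have hb := hO.bound _ hψS ε' hbd e
      rw [hAe _ hψS, hZ.add _ _ (hqS s) (d2 (-1) _ c1).1, hZ.smul _ _ c1, hev.1, mul_one, neg_one_mul,
        ← sub_eq_add_neg] at hb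
      rw [Real.dist_eq]
      refine lt_of_le_of_lt hb ?_
      have h1 : C * ε' ≤ (|C| + 1) * ε' :=
        mul_le_mul_of_nonneg_right (by linarith [le_abs_self C]) hε'0.le
      have h2 : (|C| + 1) * ε' = ε / 2 := by
        rw [hε']
        field_simp
      linarith
    rw [hgen φ hφS] at key
    refine key.congr fun s => ?_
    rw [hμq s, hpole s, hpole' s, hpole0]

end Pool.Agent.Helper47.PM
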